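import Mathlib

namespace Pool.Agent.H.MP_abc6c1_co

open Finset

def T (n : ℕ) : ℕ := [0, 1, 18, 28, 9, 23, 14, 12, 22, 4, 25, 16, 7, 15, 6, 13, 11, 24, 2, 29, 30,
  26, 8, 5, 17, 10, 21, 31, 3, 19, 20, 27].getD n 0

def D : ℕ := 166011318380479475647209166971174094299253105570626687255103894393598095407390579474180480204810042034920286534494928717788301170174984493647625451075399685830805500295614639236886484962497145137152160339339336098219437511900957482059962496507404225035135049755373706083326740415674533012778168576246959570944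

theorem D_s : ∀ n < 1024, D.testBit n = true →
    n / 32 ≠ 0 ∧ ∃ x < 32, n % 32 = T x ^^^ T (x ^^^ n / 32) := by decide +kernel

theorem T_s : ∀ n < 32, T n < 32 ∧ T (T n) = n := by decide +kernel

theorem T_apn : ∀ a < 32, a ≠ 0 → ∀ b < 32,
    ((range 32).filter fun n => T (n ^^^ a) ^^^ T n = b).card ≤ 2 := by decide +kernel

noncomputable def frc {α : Type} (x : ℕ) (k : ℕ → α) : α := Nat.rec (k 0) (fun n _ => k n.succ) x

theorem frc_eq {α : Type} (x : ℕ) (k : ℕ → α) : frc x k = k x := by cases x <;> rfl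

noncomputable def frs {α : Type} (x : ℕ) (k : ℕ → α) : α :=
  frc (Nat.add (Nat.mod x 2305843009213693951) (Nat.mul 18446744073709551616 x))
    fun y => k (Nat.div y 18446744073709551616)

theorem frs_eq {α : Type} (x : ℕ) (k : ℕ → α) : frs x k = k x := by
  rw [frs, frc_eq]
  congr 1
  show (x % 2305843009213693951 + 18446744073709551616 * x) / 18446744073709551616 = x
  omega

def Mk (i : ℕ) : ℕ := (2 ^ 1024 - 1) / (2 ^ 2 ^ i + 1)

theorem Mk_s : ∀ i < 10, ∀ n < 1024, ((Mk i).testBit n = true ∧ n ^^^ 2 ^ i = 2 ^ i + n) ∨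
    (2 ^ i ≤ n ∧ (Mk i).testBit (n - 2 ^ i) = true ∧ n ^^^ 2 ^ i = n - 2 ^ i) := by
  decide +kernel

def bf (m s X : ℕ) : ℕ :=
  Nat.lor (Nat.shiftLeft (Nat.land X m) s) (Nat.land (Nat.shiftRight X s) m)

theorem bf_s {i n X : ℕ} (hi : i < 10) (hn : n < 1024) (h : X.testBit (n ^^^ 2 ^ i) = true) :
    (bf (Mk i) (2 ^ i) X).testBit n = true := by
  have : bf (Mk i) (2 ^ i) X = ((X &&& Mk i) <<< 2 ^ i) ||| ((X >>> 2 ^ i) &&& Mk i) := rfl
  rw [this, Nat.testBit_or, Nat.testBit_shiftLeft, Nat.testBit_and, Nat.testBit_and,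
    Nat.testBit_shiftRight]
  rcases Mk_s i hi n hn with ⟨h1, h2⟩ | ⟨h1, h2, h3⟩
  · rw [← h2, h, h1]; simp
  · rw [h2, ← h3, h]; simp [h1]

noncomputable def xs (v k : ℕ) : ℕ → ℕ :=
  Nat.rec (fun X => X) (fun i ih X => Bool.rec (frs (bf (Mk i) (2 ^ i) X) ih) (ih X)
    (Nat.beq (Nat.land (Nat.shiftRight v i) 1) 0)) k

theorem mod_s : ∀ i < 10, ∀ v < 1024,
    v % 2 ^ (i + 1) = if (v >>> i) &&& 1 = 0 then v % 2 ^ i else v % 2 ^ i ^^^ 2 ^ i := by
  decide +kernel

theorem xs_s {v : ℕ} (hv : v < 1024) : ∀ (k X n : ℕ), k ≤ 10 → n < 1024 →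
    X.testBit (n ^^^ v % 2 ^ k) = true → (xs v k X).testBit n = true
  | 0, X, n, _, _, h => by
    have : xs v 0 X = X := rfl
    simpa [this, Nat.mod_one] using h
  | k + 1, X, n, hk, hn, h => by
    have e : xs v (k + 1) X = Bool.rec (frs (bf (Mk k) (2 ^ k) X) (xs v k)) (xs v k X)
      (Nat.beq ((v >>> k) &&& 1) 0) := rfl
    rw [mod_s k (by omega) v hv] at h
    rw [e, frs_eq]
    split_ifs at h with h0
    · rw [h0]; exact xs_s hv k X n (by omega) hn h
    · rw [show Nat.beq ((v >>> k) &&& 1) 0 = false from by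
        cases hb : Nat.beq ((v >>> k) &&& 1) 0
        · rfl
        · exact absurd (Nat.eq_of_beq_eq_true hb) h0]
      refine xs_s hv k _ n (by omega) hn (bf_s (by omega) ?_ (by rwa [Nat.xor_assoc]))
      exact Nat.xor_lt_two_pow (n := 10) hn ((Nat.mod_le _ _).trans_lt hv)

noncomputable def cut (A v : ℕ) : ℕ := Nat.land A (xs v 10 A)

theorem cut_s {A v n : ℕ} (hv : v < 1024) (hn : n < 1024) (h1 : A.testBit n = true)
    (h2 : A.testBit (n ^^^ v) = true) : (cut A v).testBit n = true := by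
  have : cut A v = A &&& xs v 10 A := rfl
  rw [this, Nat.testBit_and, h1, xs_s hv 10 A n le_rfl hn (by rwa [Nat.mod_eq_of_lt (show v < 2 ^ 10 from hv)])]
  rfl

noncomputable def lg (A : ℕ) : ℕ :=
  Nat.rec (motive := fun _ => ℕ → ℕ) (fun v => v) (fun i ih v => frc (Nat.add v (Nat.pow 2 i))
    fun w => Bool.rec (ih w) (ih v) (Nat.beq (Nat.shiftRight A w) 0)) 10 0

noncomputable def allB (p : ℕ → Bool) (f : ℕ) : ℕ → Bool :=
  Nat.rec (fun _ => false) (fun _ ih A => Bool.rec (frc (lg A) fun v =>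
    Bool.rec false (frs (Nat.xor A (Nat.pow 2 v)) ih) (p v)) true (Nat.beq A 0)) f

theorem allB_s {p : ℕ → Bool} : ∀ {f A : ℕ}, allB p f A = true → ∀ x, A.testBit x = true →
    p x = true
  | 0, A, h, _, _ => by cases h
  | f + 1, A, h, x, hx => by
    have h' : (Bool.rec (frc (lg A) fun v =>
      Bool.rec false (frs (A ^^^ 2 ^ v) (allB p f)) (p v)) true (Nat.beq A 0) : Bool) = true := h
    cases hb : Nat.beq A 0 with
    | true => rw [Nat.eq_of_beq_eq_true hb] at hx; simp at hx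
    | false =>
      rw [hb, frc_eq] at h'
      cases hp : p (lg A) with
      | false => simp [hp] at h'
      | true =>
        simp only [hp, frs_eq] at h'
        by_cases e : lg A = x
        · rwa [← e]
        · exact allB_s h' x (by simp [Nat.testBit_xor, hx, e])

def A0 (m : ℕ) : ℕ := (2 ^ m - 1) ^^^ D

theorem A0_s {m n : ℕ} (hn : n < m) (h : D.testBit n = false) : (A0 m).testBit n = true := by
  simp [A0, Nat.testBit_xor, h, Nat.testBit_two_pow_sub_one, hn]

noncomputable def mi (v : ℕ) (S : List ℕ) : Bool :=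
  List.rec true (fun s _ ih => Bool.rec false ih (Nat.ble v (Nat.xor v s))) S

theorem mi_s (v : ℕ) (S : List ℕ) (h : ∀ s ∈ S, v ≤ v ^^^ s) : mi v S = true := by
  induction S with
  | nil => rfl
  | cons s l ih =>
    have e : mi v (s :: l) = Bool.rec false (mi v l) (Nat.ble v (v ^^^ s)) := rfl
    rw [e, ih fun t ht => h t (List.mem_cons_of_mem _ ht),
      Nat.ble_eq_true_of_le (h s List.mem_cons_self)]

noncomputable def go : ℕ → ℕ → List ℕ → Bool
  | 0, A, U => Nat.beq A 0 && (U.all (· < 32) || U.all (· % 32 = 0))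
  | k + 1, A, U => allB (fun v => Bool.rec true (frs ((A >>> (v + 1)) <<< (v + 1)) fun B =>
      frs (cut B v) fun A' => go k A' (v :: U)) (mi v U)) 1024 (A % 2 ^ 2 ^ (10 - k))

theorem go_ok : go 5 (A0 1024 ^^^ 1) [] = true := by decide +kernel

theorem pig (K : Finset ℕ) (h1 : ∀ x ∈ K, x < 1024) (h2 : ∀ x ∈ K, ∀ y ∈ K, x ^^^ y ∈ K)
    (h3 : 32 ≤ K.card) (k : ℕ) (hk : k ≤ 4) :
    2 ^ (5 - k) ≤ (K.filter (· < 2 ^ (10 - k))).card := by
  obtain ⟨y, -, hy⟩ := exists_le_card_fiber_of_mul_le_card_of_maps_to (s := K) (t := range (2 ^ k))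
    (f := fun n => n / 2 ^ (10 - k)) (n := 2 ^ (5 - k)) (fun a ha => by
      have := h1 a ha
      rw [mem_range, Nat.div_lt_iff_lt_mul (by positivity), ← pow_add,
        show k + (10 - k) = 10 by omega]
      omega) (by simp) (by rw [card_range, ← pow_add, show k + (5 - k) = 5 by omega]; omega)
  obtain ⟨x0, hx0⟩ := card_pos.1 (lt_of_lt_of_le (by positivity) hy)
  refine hy.trans (card_le_card_of_injOn (· ^^^ x0) (fun x hx => ?_) fun a _ b _ h => by simpa using h)
  simp only [coe_filter, Set.mem_ofPred_eq, mem_filter] at hx hx0 ⊢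
  refine ⟨h2 _ hx.1 _ hx0.1, ?_⟩
  rw [← Nat.div_eq_zero_iff_lt (by positivity), Nat.xor_div_two_pow, hx.2, hx0.2, Nat.xor_self]

theorem go_s (K : Finset ℕ) (h1 : ∀ x ∈ K, x < 1024) (h2 : ∀ x ∈ K, ∀ y ∈ K, x ^^^ y ∈ K)
    (h3 : 32 ≤ K.card) : ∀ (k : ℕ) (S : List ℕ) (A : ℕ) (U : List ℕ),
    k ≤ 5 → go k A U = true → (∀ x ∈ U, x ∈ S) → S.length ≤ 2 ^ (5 - k) → (∀ x ∈ S, x ∈ K) →
    (∀ x ∈ S, ∀ y ∈ S, x ^^^ y ∈ S) → 0 ∈ S → (∀ x ∈ K, x ∉ S → A.testBit x = true) →
    (U.all (· < 32) = true → ∀ x ∈ S, x < 32) → (U.all (· % 32 = 0) = true → ∀ x ∈ S, x % 32 = 0) →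
    (∀ x ∈ K, x < 32) ∨ ∀ x ∈ K, x % 32 = 0 := by
  intro k
  induction k with
  | zero =>
    intro S A U _ h _ _ s1 s2 s0 s3 s4 s5
    simp only [go, Bool.and_eq_true, Bool.or_eq_true] at h
    have : ∀ x ∈ K, x ∈ S := by
      intro u hu
      by_contra hu'
      have := s3 u hu hu'
      rw [Nat.eq_of_beq_eq_true h.1] at this
      simp at this
    exact h.2.imp (fun h x hx => s4 h x (this x hx)) fun h x hx => s5 h x (this x hx)
  | succ k ih =>
    intro S A U hk h su sl s1 s2 s0 s3 s4 s5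
    have hp := pig K h1 h2 h3 k (by omega)
    have e5 : 2 ^ (5 - k) = 2 ^ (5 - (k + 1)) * 2 := by
      rw [show 5 - k = 5 - (k + 1) + 1 by omega, pow_succ]
    have : ∃ u ∈ K.filter (· < 2 ^ (10 - k)), u ∉ S.toFinset := by
      by_contra hc
      push Not at hc
      have := (card_le_card hc).trans (List.toFinset_card_le S)
      have : 0 < 2 ^ (5 - (k + 1)) := by positivity
      omega
    obtain ⟨u, hu, hu'⟩ := this
    rw [mem_filter] at hu
    obtain ⟨v, hv, hm⟩ := exists_min_image (K.filter (· ∉ S)) id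
      ⟨u, mem_filter.2 ⟨hu.1, by simpa using hu'⟩⟩
    rw [mem_filter] at hv
    have hm' : ∀ x ∈ K, x ∉ S → v ≤ x := fun x a b => hm x (mem_filter.2 ⟨a, b⟩)
    have hvu := hm' u hu.1 (by simpa using hu')
    have h6 := allB_s h v (by
      rw [Nat.testBit_mod_two_pow, s3 v hv.1 hv.2]; simp; omega)
    rw [mi_s v U fun s hs => hm' _ (h2 _ hv.1 _ (s1 _ (su s hs))) fun h => hv.2 (by
      simpa using s2 _ h _ (su s hs))] at h6
    simp only [frs_eq] at h6
    have hS : ∀ x, x ∈ S ++ S.map (v ^^^ ·) ↔ x ∈ S ∨ x ^^^ v ∈ S := by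
      intro x
      simp only [List.mem_append, List.mem_map]
      refine or_congr_right ⟨?_, fun h => ⟨_, h, by simp [Nat.xor_comm x v]⟩⟩
      rintro ⟨s, hs, rfl⟩
      simpa [Nat.xor_comm v s] using hs
    have hA : ∀ x ∈ K, x ∉ S → x ^^^ v ∉ S → ((A >>> (v + 1)) <<< (v + 1)).testBit x = true := by
      intro x hx a b
      have h7 := hm' x hx a
      have h8 : x ≠ v := fun e => b (by simpa [e] using s0)
      rw [Nat.testBit_shiftLeft, Nat.testBit_shiftRight, show v + 1 + (x - (v + 1)) = x by omega,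
        s3 x hx a]
      simp; omega
    refine ih (S ++ S.map (v ^^^ ·)) _ _ (by omega) h6 ?_ ?_ ?_ ?_ (by simp [s0]) ?_ ?_ ?_
    · intro x hx
      rw [hS]
      rcases List.mem_cons.1 hx with rfl | hx
      · exact Or.inr (by simpa using s0)
      · exact Or.inl (su x hx)
    · rw [List.length_append, List.length_map]; omega
    · intro x hx
      rcases (hS x).1 hx with hx | hx
      · exact s1 x hx
      · simpa using h2 _ (s1 _ hx) _ hv.1
    · intro x hx y hy
      rw [hS] at hx hy ⊢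
      rcases hx with hx | hx <;> rcases hy with hy | hy
      · exact Or.inl (s2 _ hx _ hy)
      · exact Or.inr (by rw [Nat.xor_assoc]; exact s2 _ hx _ hy)
      · exact Or.inr (by rw [Nat.xor_right_comm]; exact s2 _ hx _ hy)
      · refine Or.inl ?_
        have := s2 _ hx _ hy
        rwa [Nat.xor_assoc, Nat.xor_left_comm v, Nat.xor_self, Nat.xor_zero] at this
    · intro x hx hx'
      rw [hS, not_or] at hx'
      exact cut_s (h1 v hv.1) (h1 x hx) (hA x hx hx'.1 hx'.2)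
        (hA _ (h2 _ hx _ hv.1) hx'.2 (by simpa using hx'.1))
    · intro hg x hx
      rw [List.all_cons, Bool.and_eq_true, decide_eq_true_eq] at hg
      rcases (hS x).1 hx with hx | hx
      · exact s4 hg.2 x hx
      · simpa using Nat.xor_lt_two_pow (n := 5) (s4 hg.2 _ hx) hg.1
    · intro hg x hx
      rw [List.all_cons, Bool.and_eq_true, decide_eq_true_eq] at hg
      rcases (hS x).1 hx with hx | hx
      · exact s5 hg.2 x hx
      · have := s5 hg.2 _ hx
        rw [Nat.xor_mod_two_pow (n := 5), show v % 2 ^ 5 = 0 from hg.1, Nat.xor_zero] at this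
        exact this

noncomputable def go2 (c : ℕ) : ℕ → ℕ → Bool
  | 0, _ => false
  | k + 1, A => allB (fun b => frc (Nat.xor (32 * 2 ^ k + b) c) fun v => frs (cut A v) (go2 c k))
      33 ((A >>> (32 * 2 ^ k)) % 2 ^ 32)

theorem go2_ok : ∀ c < 32, c ≠ 0 → go2 c 5 (A0 1024) = true := by decide +kernel

theorem go2_s (K : Set ℕ) (c : ℕ) (hc : c < 32) (h1 : ∀ x ∈ K, x < 1024)
    (h2 : ∀ x ∈ K, ∀ y ∈ K, x ^^^ y ∈ K) (h3 : ∀ a < 32, ∃ b < 32, 32 * a + b ^^^ c ∈ K) :
    ∀ (k A : ℕ), k ≤ 5 → go2 c k A = true → (∀ x ∈ K, A.testBit (x ^^^ c) = true) → False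
  | 0, S, _, h, _ => by simp [go2] at h
  | k + 1, A, hk, h, s1 => by
    obtain ⟨b, hb, hK⟩ := h3 (2 ^ k) (Nat.pow_lt_pow_right one_lt_two (show k < 5 by omega))
    have h6 := allB_s h b (by
      have := s1 _ hK
      rw [Nat.xor_xor_cancel_right] at this
      rw [Nat.testBit_mod_two_pow, Nat.testBit_shiftRight, this]; simpa using hb)
    rw [frc_eq, frs_eq] at h6
    refine go2_s K c hc h1 h2 h3 k _ (by omega) h6 fun x hx => cut_s (h1 _ hK)
      (Nat.xor_lt_two_pow (n := 10) (h1 x hx) (by omega)) (s1 x hx) ?_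
    rw [Nat.xor_right_comm]
    exact s1 _ (h2 _ hx _ hK)

def vec (n : ℕ) (i : Fin 5) : ZMod 2 := if n.testBit i then 1 else 0

theorem vec_xor (a b : ℕ) : vec (a ^^^ b) = vec a + vec b := by
  funext i
  simp only [vec, Nat.testBit_xor, Pi.add_apply]
  cases a.testBit i <;> cases b.testBit i <;> decide

theorem vec_inj : ∀ a < 32, vec a = 0 → a = 0 := by decide
theorem vec_surj : ∀ x : Fin 5 → ZMod 2, ∃ a < 32, vec a = x := by decide +kernel

theorem model {F : Type} [AddCommGroup F] (e : (Fin 5 → ZMod 2) ≃+ F) :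
    ∃ (φ : ℕ → F) (ix : F → ℕ), (∀ a b, φ (a ^^^ b) = φ a + φ b) ∧ (∀ x, ix x < 32) ∧
      (∀ x, φ (ix x) = x) ∧ (∀ n < 32, ix (φ n) = n) ∧ φ 0 = 0 := by
  choose ix h1 h2 using fun x : F => vec_surj (e.symm x)
  refine ⟨fun n => e (vec n), ix, fun a b => by simp only [vec_xor, map_add], h1,
    fun x => by simp [h2], fun n hn => ?_, by simp [show vec 0 = 0 by decide]⟩
  have := h2 (e (vec n))
  rw [e.symm_apply_apply] at this
  have h3 : vec (ix (e (vec n)) ^^^ n) = 0 := by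
    rw [vec_xor, this]; funext i; exact CharTwo.add_self_eq_zero _
  simpa using vec_inj _ (Nat.xor_lt_two_pow (n := 5) (h1 _) hn) h3

theorem core {F : Type} [AddCommGroup F] [Finite F] (φ : ℕ → F) (ix : F → ℕ)
    (p1 : ∀ a b, φ (a ^^^ b) = φ a + φ b) (p2 : ∀ x, ix x < 32) (p3 : ∀ x, φ (ix x) = x)
    (p4 : ∀ n < 32, ix (φ n) = n) (p5 : φ 0 = 0) (K : AddSubgroup (F × F)) (c : F) (hc : c ≠ 0)
    (h : ∀ a, ∃ b, (a, b) ∈ K) :
    ∃ x y, (x + y, φ (T (ix x)) + φ (T (ix y)) + c) ∈ K := by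
  by_contra hn
  push Not at hn
  refine go2_s {n | n < 1024 ∧ (φ (n / 32), φ (n % 32)) ∈ K} (ix c) (p2 c) (fun x hx => hx.1)
    (fun x hx y hy => ⟨?_, ?_⟩) (fun a ha => ?_) 5 _ le_rfl
    (go2_ok _ (p2 c) fun h => hc (by rw [← p3 c, h, p5])) fun x hx => ?_
  · exact Nat.xor_lt_two_pow (n := 10) hx.1 hy.1
  · have := K.add_mem hx.2 hy.2
    rwa [Prod.mk_add_mk, ← p1, ← p1, ← Nat.xor_div_two_pow (n := 5),
      ← Nat.xor_mod_two_pow (n := 5)] at this
  · obtain ⟨b, hb⟩ := h (φ a)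
    have h1 := p2 c
    have h2 := Nat.xor_lt_two_pow (n := 5) (p2 b) h1
    refine ⟨ix b ^^^ ix c, h2, Nat.xor_lt_two_pow (n := 10) (by omega) (by omega), ?_⟩
    rwa [Nat.xor_div_two_pow (n := 5), Nat.xor_mod_two_pow (n := 5),
      show (32 * a + (ix b ^^^ ix c)) / 2 ^ 5 = a by omega,
      show (32 * a + (ix b ^^^ ix c)) % 2 ^ 5 = ix b ^^^ ix c by omega,
      show ix c / 2 ^ 5 = 0 by omega, show ix c % 2 ^ 5 = ix c by omega, Nat.xor_zero,
      Nat.xor_xor_cancel_right, p3]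
  · have hc' := p2 c
    have hl : x ^^^ ix c < 1024 := Nat.xor_lt_two_pow (n := 10) hx.1 (by omega)
    refine A0_s hl ?_
    by_contra hD
    obtain ⟨-, u, hu, e⟩ := D_s _ hl (by simpa using hD)
    have e1 : (x ^^^ ix c) / 32 = x / 32 := by
      rw [Nat.xor_div_two_pow (n := 5), show ix c / 2 ^ 5 = 0 by omega, Nat.xor_zero]
    have e2 : (x ^^^ ix c) % 32 = x % 32 ^^^ ix c := by
      rw [Nat.xor_mod_two_pow (n := 5), show ix c % 2 ^ 5 = ix c by omega]
    have hx1 := hx.1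
    rw [e1, e2] at e
    apply hn (φ u) (φ (u ^^^ x / 32))
    rw [p4 u hu, p4 _ (Nat.xor_lt_two_pow (n := 5) hu (by omega)), ← p1, ← p1, ← e, ← p3 c, ← p1,
      p4 _ hc', Nat.xor_xor_cancel_left, Nat.xor_xor_cancel_right]
    exact hx.2

theorem cls {F : Type} [AddCommGroup F] (φ : ℕ → F) (ix : F → ℕ)
    (p1 : ∀ a b, φ (a ^^^ b) = φ a + φ b) (p2 : ∀ x, ix x < 32) (p3 : ∀ x, φ (ix x) = x)
    (p4 : ∀ n < 32, ix (φ n) = n) (p5 : φ 0 = 0) (K : AddSubgroup (F × F)) (j : F → F × F)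
    (hj : Function.Injective j) (hK : ∀ y, j y ∈ K)
    (h : ∀ x y, (x + y, φ (T (ix x)) + φ (T (ix y))) ∈ K → x = y) :
    (∀ y, (j y).1 = 0) ∨ ∀ y, (j y).2 = 0 := by
  classical
  have hm : ∀ y, 32 * ix (j y).1 + ix (j y).2 ∈
      (range 1024).filter fun n => (φ (n / 32), φ (n % 32)) ∈ K := by
    intro y
    have := p2 (j y).1
    have := p2 (j y).2
    rw [mem_filter, mem_range, show (32 * ix (j y).1 + ix (j y).2) / 32 = ix (j y).1 by omega,
      show (32 * ix (j y).1 + ix (j y).2) % 32 = ix (j y).2 by omega, p3, p3]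
    exact ⟨by omega, hK y⟩
  have := go_s ((range 1024).filter fun n => (φ (n / 32), φ (n % 32)) ∈ K)
    (fun x hx => by simpa using (mem_filter.1 hx).1) (fun x hx y hy => ?_) ?_
    5 [0] _ _ le_rfl go_ok (by simp) (by simp) (by simp [p5, show ((0, 0) : F × F) ∈ K from K.zero_mem]) (by simp)
    (by simp) (fun x hx hx0 => ?_) (by simp) (by simp)
  · refine this.imp (fun h y => ?_) fun h y => ?_
    · have := h _ (hm y)
      rw [← p3 (j y).1, show ix (j y).1 = 0 by omega, p5]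
    · have := h _ (hm y)
      have := p2 (j y).2
      rw [← p3 (j y).2, show ix (j y).2 = 0 by omega, p5]
  · simp only [mem_filter, mem_range] at hx hy ⊢
    refine ⟨Nat.xor_lt_two_pow (n := 10) hx.1 hy.1, ?_⟩
    have := K.add_mem hx.2 hy.2
    rwa [Prod.mk_add_mk, ← p1, ← p1, ← Nat.xor_div_two_pow (n := 5),
      ← Nat.xor_mod_two_pow (n := 5)] at this
  · refine (card_range 32).symm.le.trans (card_le_card_of_injOn
      (fun n => 32 * ix (j (φ n)).1 + ix (j (φ n)).2) (fun n _ => hm _) fun a ha b hb e => ?_)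
    have := p2 (j (φ a)).2
    have := p2 (j (φ b)).2
    simp only [coe_range, Set.mem_Iio] at ha hb e
    have e1 : ix (j (φ a)).1 = ix (j (φ b)).1 := by omega
    have e2 : ix (j (φ a)).2 = ix (j (φ b)).2 := by omega
    have := hj (Prod.ext (by rw [← p3 (j _).1, e1, p3]) (by rw [← p3 (j _).2, e2, p3]) :
      j (φ a) = j (φ b))
    rw [← p4 a ha, this, p4 b hb]
  · simp only [mem_filter, mem_range] at hx
    rw [Nat.testBit_xor, A0_s hx.1, Nat.testBit_one_eq_true_iff_self_eq_zero.not.2 (by simpa using hx0) |> Bool.eq_false_iff.2]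
    · rfl
    by_contra hD
    obtain ⟨h0, u, hu, e⟩ := D_s _ hx.1 (by simpa using hD)
    have hl := Nat.xor_lt_two_pow (n := 5) hu (show x / 32 < 2 ^ 5 by omega)
    have := h (φ u) (φ (u ^^^ x / 32)) (by
      rw [p4 u hu, p4 _ hl, ← p1, ← p1, ← e, Nat.xor_xor_cancel_left]; exact hx.2)
    have := congrArg ix this
    rw [p4 u hu, p4 _ hl] at this
    have h2 := congrArg (u ^^^ ·) this
    simp at h2
    omega

end Pool.Agent.H.MP_abc6c1_co
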